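import Pool.Agent.X34.CY.Stm

set_option autoImplicit false

namespace Pool.Agent.X176.CY

open Finset Pool.Agent.X34.CY

theorem key {c T g : ℝ} (hc : 0 < c) (hc1 : c ≤ 1) (hT : 2 ≤ T) (hg : 2 ≤ g)
    (hT2 : 2 * (6 : ℝ) ^ (4 / c) + (2 : ℝ) ^ (c / 2) ≤ T * ((2 : ℝ) ^ (c / 2) - 1))
    (hgT : g ≤ T ^ (1 + c / 2)) :
    g ^ (1 - c) * (T / g + 2) ≤ g ^ (-(c / 4)) * (T - 1) := by
  have hg0 : 0 < g := by linarith
  have e1 : g ^ (1 - c) * (T / g + 2) = g ^ (-c) * (T + 2 * g) := by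
    rw [show (1 - c) = 1 + (-c) by ring, Real.rpow_add hg0, Real.rpow_one]
    field_simp
  rw [e1]
  have hT1 : 0 < T - 1 := by linarith
  rcases lt_or_ge g ((6 : ℝ) ^ (4 / c)) with h | h
  · have e2 : g ^ (-c) = g ^ (-(c / 2)) * g ^ (-(c / 2)) := by
      rw [← Real.rpow_add hg0]; congr 1; ring
    have ha : (0 : ℝ) < (2 : ℝ) ^ (c / 2) := by positivity
    have e3 : g ^ (-(c / 2)) ≤ ((2 : ℝ) ^ (c / 2))⁻¹ := by
      rw [Real.rpow_neg hg0.le]
      exact inv_anti₀ ha (Real.rpow_le_rpow (by norm_num) hg (by positivity))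
    have e4 : T + 2 * g ≤ (2 : ℝ) ^ (c / 2) * (T - 1) := by nlinarith
    have e5 : g ^ (-(c / 2)) ≤ g ^ (-(c / 4)) :=
      Real.rpow_le_rpow_of_exponent_le (by linarith) (by linarith)
    have p1 : 0 < g ^ (-(c / 2)) := by positivity
    calc g ^ (-c) * (T + 2 * g) = g ^ (-(c / 2)) * (g ^ (-(c / 2)) * (T + 2 * g)) := by
          rw [e2]; ring
      _ ≤ g ^ (-(c / 2)) * (((2 : ℝ) ^ (c / 2))⁻¹ * ((2 : ℝ) ^ (c / 2) * (T - 1))) := by
          apply mul_le_mul_of_nonneg_left _ p1.le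
          apply mul_le_mul e3 e4 (by positivity) (by positivity)
      _ = g ^ (-(c / 2)) * (T - 1) := by field_simp
      _ ≤ g ^ (-(c / 4)) * (T - 1) := mul_le_mul_of_nonneg_right e5 hT1.le
  · have h6 : 6 ≤ g ^ (c / 4) := by
      calc (6 : ℝ) = ((6 : ℝ) ^ (4 / c)) ^ (c / 4) := by
            rw [← Real.rpow_mul (by norm_num), show 4 / c * (c / 4) = 1 by field_simp, Real.rpow_one]
        _ ≤ g ^ (c / 4) := Real.rpow_le_rpow (by positivity) h (by positivity)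
    have e2 : g ≤ T * g ^ (c / 2) := by
      have q1 : g ^ (1 - c / 2) ≤ T := by
        calc g ^ (1 - c / 2) ≤ (T ^ (1 + c / 2)) ^ (1 - c / 2) :=
              Real.rpow_le_rpow hg0.le hgT (by linarith)
          _ = T ^ ((1 + c / 2) * (1 - c / 2)) := by rw [← Real.rpow_mul (by linarith)]
          _ ≤ T ^ (1 : ℝ) := Real.rpow_le_rpow_of_exponent_le (by linarith) (by nlinarith)
          _ = T := Real.rpow_one T
      calc g = g ^ (1 - c / 2) * g ^ (c / 2) := by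
            rw [← Real.rpow_add hg0, show 1 - c / 2 + c / 2 = 1 by ring, Real.rpow_one]
        _ ≤ T * g ^ (c / 2) := mul_le_mul_of_nonneg_right q1 (by positivity)
    have e3 : 1 ≤ g ^ (c / 2) := Real.one_le_rpow (by linarith) (by positivity)
    have e4 : T + 2 * g ≤ 6 * (T - 1) * g ^ (c / 2) := by nlinarith
    have e6 : g ^ (-c) * g ^ (c / 2) = g ^ (-(c / 4)) * g ^ (-(c / 4)) := by
      rw [← Real.rpow_add hg0, ← Real.rpow_add hg0]; congr 1; ring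
    have e7 : 6 * g ^ (-(c / 4)) ≤ 1 := by
      rw [Real.rpow_neg hg0.le, ← div_eq_mul_inv, div_le_one (by positivity)]
      exact h6
    have p1 : 0 < g ^ (-(c / 4)) := by positivity
    calc g ^ (-c) * (T + 2 * g) ≤ g ^ (-c) * (6 * (T - 1) * g ^ (c / 2)) :=
          mul_le_mul_of_nonneg_left e4 (by positivity)
      _ = 6 * (T - 1) * (g ^ (-c) * g ^ (c / 2)) := by ring
      _ = (6 * g ^ (-(c / 4))) * (g ^ (-(c / 4)) * (T - 1)) := by rw [e6]; ring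
      _ ≤ 1 * (g ^ (-(c / 4)) * (T - 1)) := by
          apply mul_le_mul_of_nonneg_right e7 (by positivity)
      _ = _ := one_mul _

theorem sumsq (N : ℕ) : ∑ g ∈ Icc 2 N, (1 : ℝ) / (g : ℝ) ^ 2 ≤ 1 := by
  have h : ∀ N : ℕ, 1 ≤ N → ∑ g ∈ Icc 2 N, (1 : ℝ) / (g : ℝ) ^ 2 ≤ 1 - 1 / N := by
    intro N hN
    induction N, hN using Nat.le_induction with
    | base => simp
    | succ n hn ih =>
      rw [Finset.sum_Icc_succ_top (by omega)]
      have hn0 : (0 : ℝ) < n := by exact_mod_cast hn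
      have : (1 : ℝ) / ((n + 1 : ℕ) : ℝ) ^ 2 ≤ 1 / n - 1 / ((n + 1 : ℕ) : ℝ) := by
        push_cast
        rw [div_sub_div _ _ (by positivity) (by positivity), div_le_div_iff₀ (by positivity) (by positivity)]
        nlinarith
      linarith
  rcases Nat.eq_zero_or_pos N with h0 | h0
  · subst h0; simp
  · have := h N h0
    have : (0 : ℝ) ≤ 1 / N := by positivity
    linarith

theorem t_AN1 : S_AN1 := by
  intro c δ lam hc hδ hlam
  have hlam0 : 0 < lam := by rcases hlam with h | h <;> rw [h] <;> norm_num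
  have ha : 1 < (2 : ℝ) ^ (c / 2) := Real.one_lt_rpow (by norm_num) (by positivity)
  obtain ⟨K1, hK1⟩ := exists_nat_ge ((2 * (6 : ℝ) ^ (4 / c) + (2 : ℝ) ^ (c / 2)) / ((2 : ℝ) ^ (c / 2) - 1))
  obtain ⟨K2, hK2⟩ := exists_nat_ge (4 / c * (2 + |Real.logb 2 δ|))
  refine ⟨K1 + K2 + 2, fun k d R Wc B hKk hKR hd hW hB => ?_⟩
  have hk2 : 2 ≤ k := by omega
  have hk0 : (0 : ℝ) < k := by positivity
  have hc1 : c ≤ 1 := by
    by_contra hcon
    push Not at hcon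
    have : (0 : ℝ) ≤ d := by positivity
    nlinarith
  set T : ℝ := (R : ℝ) / k with hTdef
  have hRT : (R : ℝ) = T * k := by rw [hTdef]; field_simp
  have hTK : ((K1 + K2 + 2 : ℕ) : ℝ) ≤ T := by
    rw [hTdef, le_div_iff₀ hk0]; exact hKR
  push_cast at hTK
  have hK1n : (0 : ℝ) ≤ K1 := by positivity
  have hK2n : (0 : ℝ) ≤ K2 := by positivity
  have hT2 : 2 ≤ T := by linarith
  have hTa : 2 * (6 : ℝ) ^ (4 / c) + (2 : ℝ) ^ (c / 2) ≤ T * ((2 : ℝ) ^ (c / 2) - 1) := by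
    rw [← div_le_iff₀ (by linarith)]
    linarith
  have hRk : 0 < (R : ℝ) - k := by rw [hRT]; nlinarith
  have hf0 : (0 : ℝ) < k.factorial := by positivity
  have hWc : 0 < Wc := by
    have : 0 < (k.factorial : ℝ) * Wc := lt_of_lt_of_le (by positivity) hW
    exact (pos_iff_pos_of_mul_pos this).1 hf0
  have hm : 2 + |Real.logb 2 δ| ≤ c * k / 4 := by
    have h1 : 4 / c * (2 + |Real.logb 2 δ|) ≤ k := by
      refine hK2.trans ?_
      exact_mod_cast (by omega : K2 ≤ k)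
    calc 2 + |Real.logb 2 δ| = (c / 4) * (4 / c * (2 + |Real.logb 2 δ|)) := by field_simp
      _ ≤ (c / 4) * k := mul_le_mul_of_nonneg_left h1 (by positivity)
      _ = c * k / 4 := by ring
  have hterm : ∀ g ∈ (Icc 2 (2 * R)).filter (fun g : ℕ => (g : ℝ) ≤ T ^ (1 + c / 2)),
      (g : ℝ) ^ d * (B g : ℝ) / Wc ≤ δ * (1 / (g : ℝ) ^ 2) := by
    intro g hg
    rw [mem_filter, mem_Icc] at hg
    obtain ⟨⟨hg2, -⟩, hgT⟩ := hg
    have hg2' : (2 : ℝ) ≤ g := by exact_mod_cast hg2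
    have hg0 : (0 : ℝ) < g := by linarith
    have hkey := key hc hc1 hT2 hg2' hTa hgT
    have hA : (g : ℝ) ^ d * (B g : ℝ) / Wc ≤ ((g : ℝ) ^ (-(c / 4))) ^ k := by
      rw [div_le_iff₀ hWc]
      refine le_of_mul_le_mul_right ?_ hf0
      have hd' : (g : ℝ) ^ d ≤ ((g : ℝ) ^ (1 - c)) ^ k := by
        rw [← Real.rpow_natCast, ← Real.rpow_natCast ((g : ℝ) ^ (1 - c)), ← Real.rpow_mul hg0.le]
        exact Real.rpow_le_rpow_of_exponent_le (by linarith) hd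
      have h2 : (g : ℝ) ^ (1 - c) * ((R : ℝ) / g + 2 * k) ≤ (g : ℝ) ^ (-(c / 4)) * ((R : ℝ) - k) := by
        have := mul_le_mul_of_nonneg_right hkey hk0.le
        calc (g : ℝ) ^ (1 - c) * ((R : ℝ) / g + 2 * k) = (g : ℝ) ^ (1 - c) * (T / g + 2) * k := by
              rw [hRT]; ring
          _ ≤ (g : ℝ) ^ (-(c / 4)) * (T - 1) * k := this
          _ = _ := by rw [hRT]; ring
      calc (g : ℝ) ^ d * (B g : ℝ) * k.factorial = (g : ℝ) ^ d * ((B g : ℝ) * k.factorial) := by ring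
        _ ≤ ((g : ℝ) ^ (1 - c)) ^ k * (lam ^ k * ((R : ℝ) / g + 2 * k) ^ k) :=
            mul_le_mul hd' (hB g (by omega)) (by positivity) (by positivity)
        _ = lam ^ k * ((g : ℝ) ^ (1 - c) * ((R : ℝ) / g + 2 * k)) ^ k := by rw [mul_pow]; ring
        _ ≤ lam ^ k * ((g : ℝ) ^ (-(c / 4)) * ((R : ℝ) - k)) ^ k := by
            apply mul_le_mul_of_nonneg_left _ (by positivity)
            exact pow_le_pow_left₀ (by positivity) h2 k
        _ = ((g : ℝ) ^ (-(c / 4))) ^ k * (lam ^ k * ((R : ℝ) - k) ^ k) := by rw [mul_pow]; ring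
        _ ≤ ((g : ℝ) ^ (-(c / 4))) ^ k * (k.factorial * Wc) :=
            mul_le_mul_of_nonneg_left hW (by positivity)
        _ = _ := by ring
    refine hA.trans ?_
    have e1 : ((g : ℝ) ^ (-(c / 4))) ^ k = (g : ℝ) ^ (-(c * k / 4 - 2)) * (g : ℝ) ^ (-2 : ℝ) := by
      rw [← Real.rpow_natCast, ← Real.rpow_mul hg0.le, ← Real.rpow_add hg0]
      congr 1; ring
    have e2 : (g : ℝ) ^ (-2 : ℝ) = 1 / (g : ℝ) ^ 2 := by
      rw [Real.rpow_neg hg0.le, one_div]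
      congr 1
      exact_mod_cast Real.rpow_natCast (g : ℝ) 2
    rw [e1, e2]
    apply mul_le_mul_of_nonneg_right _ (by positivity)
    have habs := abs_nonneg (Real.logb 2 δ)
    have hneg := neg_abs_le (Real.logb 2 δ)
    calc (g : ℝ) ^ (-(c * k / 4 - 2)) ≤ (2 : ℝ) ^ (-(c * k / 4 - 2)) :=
          Real.rpow_le_rpow_of_nonpos (by norm_num) hg2' (by linarith)
      _ ≤ (2 : ℝ) ^ (Real.logb 2 δ) := Real.rpow_le_rpow_of_exponent_le (by norm_num) (by linarith)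
      _ = δ := Real.rpow_logb (by norm_num) (by norm_num) hδ
  calc ∑ g ∈ (Icc 2 (2 * R)).filter (fun g : ℕ => (g : ℝ) ≤ T ^ (1 + c / 2)),
        (g : ℝ) ^ d * (B g : ℝ) / Wc
      ≤ ∑ g ∈ (Icc 2 (2 * R)).filter (fun g : ℕ => (g : ℝ) ≤ T ^ (1 + c / 2)),
        δ * (1 / (g : ℝ) ^ 2) := sum_le_sum hterm
    _ ≤ ∑ g ∈ Icc 2 (2 * R), δ * (1 / (g : ℝ) ^ 2) :=
        sum_le_sum_of_subset_of_nonneg (filter_subset _ _) (fun _ _ _ => by positivity)
    _ = δ * ∑ g ∈ Icc 2 (2 * R), (1 / (g : ℝ) ^ 2) := by rw [mul_sum]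
    _ ≤ δ * 1 := mul_le_mul_of_nonneg_left (sumsq _) hδ.le
    _ = δ := mul_one δ

end Pool.Agent.X176.CY
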